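import Pool.Agent.TH742.HP.Defs

set_option autoImplicit false

/-!
Basic facts on the cyclic distance.
-/

namespace Pool.Agent.TH742.HP

lemma cdist_comm {n : ℕ} (i j : ZMod n) : cdist i j = cdist j i := by
  unfold cdist; exact min_comm _ _

lemma cdist_add_nat_le {n : ℕ} [NeZero n] (v : ZMod n) (s : ℕ) : cdist v (v + s) ≤ s := by
  unfold cdist
  refine le_trans (min_le_right _ _) ?_
  rw [add_sub_cancel_left, ZMod.val_natCast]
  exact Nat.mod_le _ _

lemma cdist_sub_nat_le {n : ℕ} [NeZero n] (v : ZMod n) (s : ℕ) : cdist v (v - s) ≤ s := by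
  unfold cdist
  refine le_trans (min_le_left _ _) ?_
  rw [sub_sub_cancel, ZMod.val_natCast]
  exact Nat.mod_le _ _

lemma cdist_eq {n : ℕ} [NeZero n] {i j : ZMod n} (h : i.val < j.val) :
    cdist i j = min (n - (j.val - i.val)) (j.val - i.val) := by
  unfold cdist
  have h1 : (j - i).val = j.val - i.val := ZMod.val_sub h.le
  have h2 : (i - j).val = n - (j.val - i.val) := by
    rw [← neg_sub, ZMod.neg_val, if_neg, h1]
    intro h3
    rw [h3] at h1
    simp at h1
    omega
  rw [h1, h2]

lemma cdist_self {n : ℕ} [NeZero n] (i : ZMod n) : cdist i i = 0 := by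
  unfold cdist; simp

lemma two_mul_le_deg {n k : ℕ} (hn : 2 * k + 1 ≤ n) (v : ZMod n) :
    2 * k ≤ ((cyclePow n k).neighborSet v).ncard := by
  have : NeZero n := ⟨by omega⟩
  classical
  set S : Finset ℤ := (Finset.Icc (-(k:ℤ)) k).erase 0 with hS
  have hc : S.card = 2 * k := by
    rw [hS, Finset.card_erase_of_mem (by simp), Int.card_Icc]; omega
  have hmem : ∀ d ∈ S, d ≠ 0 ∧ -(k:ℤ) ≤ d ∧ d ≤ k := by
    intro d hd
    rw [hS, Finset.mem_erase, Finset.mem_Icc] at hd
    exact hd
  have hz : ∀ d : ℤ, |d| < n → (d : ZMod n) = 0 → d = 0 := by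
    intro d h1 h2
    rw [ZMod.intCast_zmod_eq_zero_iff_dvd] at h2
    exact Int.eq_zero_of_abs_lt_dvd h2 h1
  have hinj : Set.InjOn (fun d : ℤ => v + (d : ZMod n)) S := by
    intro d hd e he h
    have h1 : (d : ZMod n) = (e : ZMod n) := add_left_cancel h
    obtain ⟨-, h2, h3⟩ := hmem d hd
    obtain ⟨-, h4, h5⟩ := hmem e he
    have h6 : ((d - e : ℤ) : ZMod n) = 0 := by push_cast; rw [h1, sub_self]
    have h7 := hz (d - e) (by rw [abs_lt]; constructor <;> omega) h6
    omega
  have hsub : ((S.image (fun d : ℤ => v + (d : ZMod n)) : Finset (ZMod n)) : Set (ZMod n)) ⊆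
      (cyclePow n k).neighborSet v := by
    intro w hw
    rw [Finset.mem_coe, Finset.mem_image] at hw
    obtain ⟨d, hd, rfl⟩ := hw
    obtain ⟨h1, h2, h3⟩ := hmem d hd
    refine ⟨fun h => h1 (hz d (by rw [abs_lt]; constructor <;> omega) (left_eq_add.mp h)), ?_⟩
    rcases Int.eq_nat_or_neg d with ⟨s, rfl | rfl⟩
    · refine le_trans ?_ (show s ≤ k by omega)
      have := cdist_add_nat_le v s
      simpa using this
    · refine le_trans ?_ (show s ≤ k by omega)
      have := cdist_sub_nat_le v s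
      simpa [sub_eq_add_neg] using this
  calc 2 * k = S.card := hc.symm
    _ = (S.image (fun d : ℤ => v + (d : ZMod n))).card := (Finset.card_image_of_injOn hinj).symm
    _ = ((S.image (fun d : ℤ => v + (d : ZMod n)) : Finset (ZMod n)) : Set (ZMod n)).ncard :=
      (Set.ncard_coe_finset _).symm
    _ ≤ _ := Set.ncard_le_ncard hsub (Set.toFinite _)

end Pool.Agent.TH742.HP
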