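import Mathlib

set_option autoImplicit false

/-!
Powers of cycles and powers of Hamilton cycles.
-/

namespace Pool.Agent.TH742.HP

/-- The cyclic distance `min (|i - j|, n - |i - j|)` of two elements of `ℤ/nℤ`. -/
def cdist {n : ℕ} (i j : ZMod n) : ℕ := min (i - j).val (j - i).val

/-- The `k`-th power `C_n^k` of the `n`-cycle: `i ≠ j` are adjacent iff their cyclic distance is
at most `k`. -/
def cyclePow (n k : ℕ) : SimpleGraph (ZMod n) where
  Adj i j := i ≠ j ∧ cdist i j ≤ k
  symm := ⟨fun i j h => ⟨h.1.symm, by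
    have := h.2
    unfold cdist at *
    rwa [min_comm]⟩⟩
  loopless := ⟨fun i h => h.1 rfl⟩

/-- `H` is an `α`-subgraph of `G`: a spanning subgraph with `d_H(v) ≥ α d_G(v)` for every
vertex `v`. -/
def IsAlphaSubgraph {V : Type} (α : ℝ) (G H : SimpleGraph V) : Prop :=
  H ≤ G ∧ ∀ v, α * ((G.neighborSet v).ncard : ℝ) ≤ ((H.neighborSet v).ncard : ℝ)

/-- The graph `H` on `n` vertices contains the `t`-th power of a Hamilton cycle: there is a cyclic
ordering `v` of all the vertices in which any two distinct vertices whose positions have cyclic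
distance at most `t` are adjacent. -/
def HasHamPow {n : ℕ} (t : ℕ) (H : SimpleGraph (ZMod n)) : Prop :=
  ∃ v : ZMod n ≃ ZMod n, ∀ i j : ZMod n, i ≠ j → cdist i j ≤ t → H.Adj (v i) (v j)

/-- `α` is good for `t`: there is `k₀` such that for all `k ≥ k₀` and `n ≥ k` (`n ≥ 3`), every
`α`-subgraph of `C_n^k` contains the `t`-th power of a Hamilton cycle. -/
def Good (t : ℕ) (α : ℝ) : Prop :=
  ∃ k₀ : ℕ, ∀ k n : ℕ, k₀ ≤ k → k ≤ n → 3 ≤ n → ∀ H : SimpleGraph (ZMod n),
    IsAlphaSubgraph α (cyclePow n k) H → HasHamPow t H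

end Pool.Agent.TH742.HP
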