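import Pool.Agent.TH742.HP.Basic

set_option autoImplicit false

/-!
The triangle inequality for the cyclic distance, and upper bounds for degrees.
-/

namespace Pool.Agent.TH742.HP

lemma cdist_add_int_le {n : ℕ} [NeZero n] (v : ZMod n) (d : ℤ) :
    cdist v (v + (d : ZMod n)) ≤ d.natAbs := by
  rcases Int.eq_nat_or_neg d with ⟨s, rfl | rfl⟩
  · have := cdist_add_nat_le v s
    simpa using this
  · have := cdist_sub_nat_le v s
    simpa [sub_eq_add_neg] using this

lemma exists_int {n : ℕ} [NeZero n] (x y : ZMod n) :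
    ∃ d : ℤ, d.natAbs ≤ cdist x y ∧ y = x + (d : ZMod n) := by
  unfold cdist
  rcases le_total (x - y).val (y - x).val with h | h
  · refine ⟨-((x - y).val : ℤ), ?_, ?_⟩
    · rw [min_eq_left h, Int.natAbs_neg, Int.natAbs_natCast]
    · rw [Int.cast_neg, Int.cast_natCast, ZMod.natCast_zmod_val]; ring
  · refine ⟨((y - x).val : ℤ), ?_, ?_⟩
    · rw [min_eq_right h, Int.natAbs_natCast]
    · rw [Int.cast_natCast, ZMod.natCast_zmod_val]; ring

lemma cdist_triangle {n : ℕ} [NeZero n] (x y z : ZMod n) : cdist x z ≤ cdist x y + cdist y z := by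
  obtain ⟨d, hd, h1⟩ := exists_int x y
  obtain ⟨e, he, h2⟩ := exists_int y z
  have h3 : z = x + ((d + e : ℤ) : ZMod n) := by rw [h2, h1]; push_cast; ring
  rw [h3]
  refine le_trans (cdist_add_int_le x (d + e)) ?_
  rw [← h3]
  omega

lemma cdist_le_of_val {n : ℕ} [NeZero n] (x y : ZMod n) (s : ℕ) (h1 : x.val ≤ y.val + s)
    (h2 : y.val ≤ x.val + s) : cdist x y ≤ s := by
  have h3 : y = x + (((y.val : ℤ) - x.val : ℤ) : ZMod n) := by
    push_cast
    rw [ZMod.natCast_zmod_val, ZMod.natCast_zmod_val]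
    ring
  rw [h3]
  refine le_trans (cdist_add_int_le x _) ?_
  omega

lemma deg_le {n k : ℕ} [NeZero n] (v : ZMod n) :
    ((cyclePow n k).neighborSet v).ncard ≤ 2 * k := by
  classical
  have h1 : (cyclePow n k).neighborSet v ⊆
      (((Finset.Icc 1 k).image (fun s : ℕ => v + (s : ZMod n)) ∪
        (Finset.Icc 1 k).image (fun s : ℕ => v - (s : ZMod n)) : Finset (ZMod n)) :
          Set (ZMod n)) := by
    rintro w ⟨h1, h2⟩
    rw [Finset.coe_union, Set.mem_union, Finset.mem_coe, Finset.mem_coe, Finset.mem_image,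
      Finset.mem_image]
    obtain ⟨d, hd, h3⟩ := exists_int v w
    have h4 : d ≠ 0 := by
      rintro rfl
      apply h1
      rw [h3]; simp
    rcases Int.eq_nat_or_neg d with ⟨s, rfl | rfl⟩
    · left
      refine ⟨s, ?_, ?_⟩
      · rw [Finset.mem_Icc]; omega
      · rw [h3]; simp
    · right
      refine ⟨s, ?_, ?_⟩
      · rw [Finset.mem_Icc]; omega
      · rw [h3]; simp [sub_eq_add_neg]
  have h2 := Set.ncard_le_ncard h1 (Set.toFinite _)
  rw [Set.ncard_coe_finset] at h2
  have h3 := Finset.card_union_le ((Finset.Icc 1 k).image (fun s : ℕ => v + (s : ZMod n)))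
    ((Finset.Icc 1 k).image (fun s : ℕ => v - (s : ZMod n)))
  have h4 : ((Finset.Icc 1 k).image (fun s : ℕ => v + (s : ZMod n))).card ≤ k :=
    le_trans Finset.card_image_le (by simp)
  have h5 : ((Finset.Icc 1 k).image (fun s : ℕ => v - (s : ZMod n))).card ≤ k :=
    le_trans Finset.card_image_le (by simp)
  omega

lemma deg_lt {n k : ℕ} [NeZero n] (v : ZMod n) :
    ((cyclePow n k).neighborSet v).ncard + 1 ≤ n := by
  have h1 : (cyclePow n k).neighborSet v ⊆ Set.univ \ {v} := by
    rintro w ⟨h1, -⟩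
    exact ⟨Set.mem_univ _, fun h => h1 h.symm⟩
  have h2 := Set.ncard_le_ncard h1 (Set.toFinite _)
  rw [Set.ncard_sdiff_singleton_of_mem (Set.mem_univ _), Set.ncard_univ, Nat.card_eq_fintype_card,
    ZMod.card] at h2
  have := NeZero.pos n
  omega

/-- For `n ≤ 2k + 1` the graph `C_n^k` is complete. -/
lemma cdist_le_half {n k : ℕ} [NeZero n] (hn : n ≤ 2 * k + 1) (x y : ZMod n) : cdist x y ≤ k := by
  rcases lt_trichotomy x.val y.val with h | h | h
  · rw [cdist_eq h]; omega
  · rw [ZMod.val_injective n h, cdist_self]; omega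
  · rw [cdist_comm, cdist_eq h]; omega

/-- The classes `{y : ⌊y q / n⌋ = j}` have at least `⌊n / q⌋` elements. -/
lemma class_card {n q : ℕ} [NeZero n] (hq : 0 < q) (x : ZMod n) :
    n / q ≤ {y : ZMod n | y.val * q / n = x.val * q / n}.ncard := by
  classical
  have hn : 0 < n := NeZero.pos n
  set j := x.val * q / n with hj
  have hjq : j < q := by
    rw [hj]
    apply Nat.div_lt_of_lt_mul
    exact Nat.mul_lt_mul_of_pos_right (ZMod.val_lt x) hq
  set c := (j * n + (q - 1)) / q with hc
  have h1 : q * c ≤ j * n + (q - 1) := Nat.mul_div_le _ _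
  have h2 : j * n + (q - 1) < q * (c + 1) := Nat.lt_mul_div_succ _ hq
  have h3 : j * n ≤ q * c := by
    rw [Nat.mul_add, mul_one] at h2
    omega
  have h4 : q * (n / q) ≤ n := Nat.mul_div_le _ _
  have hjn : (j + 1) * n ≤ q * n := Nat.mul_le_mul_right _ hjq
  have key : ∀ a ∈ Finset.range (n / q), q * (c + a) < (j + 1) * n ∧ j * n ≤ q * (c + a) := by
    intro a ha
    rw [Finset.mem_range] at ha
    have h5 : q * (a + 1) ≤ q * (n / q) := Nat.mul_le_mul_left _ ha
    constructor
    · nlinarith [Nat.sub_add_cancel hq]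
    · nlinarith
  have hlt : ∀ a ∈ Finset.range (n / q), c + a < n := by
    intro a ha
    have := (key a ha).1
    have h6 : q * (c + a) < q * n := lt_of_lt_of_le this hjn
    exact Nat.lt_of_mul_lt_mul_left h6
  have hsub : (((Finset.range (n / q)).image (fun a : ℕ => ((c + a : ℕ) : ZMod n)) :
      Finset (ZMod n)) : Set (ZMod n)) ⊆ {y : ZMod n | y.val * q / n = j} := by
    intro y hy
    rw [Finset.mem_coe, Finset.mem_image] at hy
    obtain ⟨a, ha, rfl⟩ := hy
    have h7 := key a ha
    change (((c + a : ℕ) : ZMod n)).val * q / n = j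
    rw [ZMod.val_natCast_of_lt (hlt a ha), mul_comm]
    rw [Nat.div_eq_iff hn]
    constructor
    · exact h7.2
    · have := h7.1
      rw [Nat.add_mul, one_mul] at this
      omega
  have h8 := Set.ncard_le_ncard hsub (Set.toFinite _)
  rw [Set.ncard_coe_finset, Finset.card_image_of_injOn, Finset.card_range] at h8
  · exact h8
  intro a ha b hb h
  have h9 := congrArg ZMod.val h
  dsimp only at h9
  rw [ZMod.val_natCast_of_lt (hlt a ha), ZMod.val_natCast_of_lt (hlt b hb)] at h9
  omega

/-- Two elements of one class differ by less than `n / q`. -/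
lemma class_diam {n q s : ℕ} [NeZero n] (hs : n ≤ q * s) (x y : ZMod n)
    (h : x.val * q / n = y.val * q / n) : cdist x y ≤ s - 1 := by
  have hn : 0 < n := NeZero.pos n
  have key : ∀ x y : ZMod n, x.val * q / n = y.val * q / n → x.val ≤ y.val + (s - 1) := by
    intro x y h
    by_contra hlt
    push Not at hlt
    have h0 : 0 < s := by
      rcases Nat.eq_zero_or_pos s with h' | h'
      · rw [h', mul_zero] at hs; omega
      · exact h'
    have h1 : y.val + s ≤ x.val := by omega
    have h2 : y.val * q + n ≤ x.val * q := by nlinarith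
    have h3 : (y.val * q + n) / n ≤ x.val * q / n := Nat.div_le_div_right h2
    rw [Nat.add_div_right _ hn] at h3
    omega
  exact cdist_le_of_val x y (s - 1) (key x y h) (key y x h.symm)

end Pool.Agent.TH742.HP
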