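import Mathlib

set_option autoImplicit false

/-!
Local exchange inside the classes of a partition (in the manner of Sauer and Spencer).
-/

namespace Pool.Agent.TH742.HP

open Classical in
theorem exchange {V ι : Type} [Fintype V] (R : V → V → Prop)
    (hRs : ∀ i j, R i j → R j i) (hRi : ∀ i, ¬ R i i) (T : ℕ)
    (hT : ∀ i, (Finset.univ.filter (fun j => R i j)).card ≤ T)
    (G H : SimpleGraph V) (D : ℕ)
    (hD : ∀ v, (Finset.univ.filter (fun w => G.Adj v w ∧ ¬ H.Adj v w)).card ≤ D)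
    (B : V → ι) (hB : ∀ i j u w, R i j → B u = B i → B w = B j → u ≠ w → G.Adj u w)
    (hs : ∀ v, 2 * (T * D) + T + 1 < (Finset.univ.filter (fun w => B w = B v)).card) :
    ∃ e : V ≃ V, ∀ i j, R i j → H.Adj (e i) (e j) := by
  set bad : Equiv.Perm V → Set (V × V) :=
    fun e => {p | R p.1 p.2 ∧ ¬ H.Adj (e p.1) (e p.2)} with hbad
  obtain ⟨e, he, hmin⟩ := Set.exists_min_image {e : Equiv.Perm V | ∀ i, B (e i) = B i}
    (fun e => (bad e).ncard) (Set.toFinite _) ⟨1, fun i => rfl⟩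
  have he : ∀ i, B (e i) = B i := he
  refine ⟨e, fun i0 j0 h0 => ?_⟩
  by_contra hne
  set X1 : Finset V := (Finset.univ.filter (fun w => G.Adj (e j0) w ∧ ¬ H.Adj (e j0) w)).biUnion
    (fun u => Finset.univ.filter (fun l => R (e.symm u) l)) with hX1
  set X2 : Finset V := (Finset.univ.filter (fun j => R j0 j)).biUnion
    (fun i => (Finset.univ.filter (fun w => G.Adj (e i) w ∧ ¬ H.Adj (e i) w)).image e.symm) with hX2
  set X3 : Finset V := insert j0 (Finset.univ.filter (fun j => R j0 j)) with hX3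
  have c1 : X1.card ≤ D * T :=
    le_trans (Finset.card_biUnion_le_card_mul _ _ T (fun u _ => hT _))
      (Nat.mul_le_mul_right _ (hD _))
  have c2 : X2.card ≤ T * D :=
    le_trans (Finset.card_biUnion_le_card_mul _ _ D
      (fun u _ => le_trans Finset.card_image_le (hD _)))
      (Nat.mul_le_mul_right _ (hT _))
  have c3 : X3.card ≤ T + 1 := le_trans (Finset.card_insert_le _ _) (Nat.succ_le_succ (hT _))
  have c4 : (X1 ∪ X2 ∪ X3).card < (Finset.univ.filter (fun w => B w = B j0)).card := by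
    refine lt_of_le_of_lt ?_ (hs j0)
    have h1 := Finset.card_union_le (X1 ∪ X2) X3
    have h2 := Finset.card_union_le X1 X2
    rw [mul_comm] at c1
    omega
  obtain ⟨l, hl, hl'⟩ := Finset.exists_mem_notMem_of_card_lt_card c4
  rw [Finset.mem_filter] at hl
  have hBl : B l = B j0 := hl.2
  rw [Finset.notMem_union, Finset.notMem_union] at hl'
  obtain ⟨⟨n1, n2⟩, n3⟩ := hl'
  have hlj : l ≠ j0 := fun h => n3 (by rw [hX3, h]; exact Finset.mem_insert_self _ _)
  have hRl : ¬ R j0 l := fun h => n3 (by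
    rw [hX3]; exact Finset.mem_insert_of_mem (Finset.mem_filter.mpr ⟨Finset.mem_univ _, h⟩))
  have g1 : ∀ j, R j0 j → H.Adj (e l) (e j) := by
    intro j hj
    by_contra hn
    apply n2
    rw [hX2, Finset.mem_biUnion]
    refine ⟨j, Finset.mem_filter.mpr ⟨Finset.mem_univ _, hj⟩, ?_⟩
    rw [Finset.mem_image]
    refine ⟨e l, Finset.mem_filter.mpr ⟨Finset.mem_univ _, ?_, fun h => hn h.symm⟩,
      e.symm_apply_apply l⟩
    refine hB j j0 (e j) (e l) (hRs _ _ hj) (he j) ((he l).trans hBl) ?_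
    intro h
    have := e.injective h
    exact hRl (this ▸ hj)
  have g2 : ∀ j, R l j → H.Adj (e j0) (e j) := by
    intro j hj
    by_contra hn
    apply n1
    rw [hX1, Finset.mem_biUnion]
    refine ⟨e j, Finset.mem_filter.mpr ⟨Finset.mem_univ _, ?_, hn⟩, ?_⟩
    · refine hB l j (e j0) (e j) hj ((he j0).trans hBl.symm) (he j) ?_
      intro h
      have := e.injective h
      exact hRl (hRs _ _ (this ▸ hj))
    · rw [Finset.mem_filter]
      refine ⟨Finset.mem_univ _, ?_⟩
      rw [e.symm_apply_apply]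
      exact hRs _ _ hj
  have hne1 : ∀ j, R j0 j → j ≠ j0 ∧ j ≠ l := fun j hj =>
    ⟨fun h => hRi j0 (h ▸ hj), fun h => hRl (h ▸ hj)⟩
  have hne2 : ∀ j, R l j → j ≠ j0 ∧ j ≠ l := fun j hj =>
    ⟨fun h => hRl (hRs _ _ (h ▸ hj)), fun h => hRi l (h ▸ hj)⟩
  set e' : Equiv.Perm V := e * Equiv.swap j0 l with he'
  have a1 : e' j0 = e l := by rw [he', Equiv.Perm.mul_apply, Equiv.swap_apply_left]
  have a2 : e' l = e j0 := by rw [he', Equiv.Perm.mul_apply, Equiv.swap_apply_right]
  have a3 : ∀ j, j ≠ j0 → j ≠ l → e' j = e j := by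
    intro j h1 h2
    rw [he', Equiv.Perm.mul_apply, Equiv.swap_apply_of_ne_of_ne h1 h2]
  have f1 : ∀ j, R j0 j → H.Adj (e' j0) (e' j) := by
    intro j hj
    rw [a1, a3 j (hne1 j hj).1 (hne1 j hj).2]
    exact g1 j hj
  have f2 : ∀ j, R l j → H.Adj (e' l) (e' j) := by
    intro j hj
    rw [a2, a3 j (hne2 j hj).1 (hne2 j hj).2]
    exact g2 j hj
  have hss : bad e' ⊂ bad e := by
    refine ⟨?_, fun h => ?_⟩
    · rintro ⟨i, j⟩ ⟨h1, h2⟩
      dsimp only at h1 h2
      have b1 : i ≠ j0 := fun h => h2 (by subst h; exact f1 j h1)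
      have b2 : i ≠ l := fun h => h2 (by subst h; exact f2 j h1)
      have b3 : j ≠ j0 := fun h => h2 (by subst h; exact (f1 i (hRs _ _ h1)).symm)
      have b4 : j ≠ l := fun h => h2 (by subst h; exact (f2 i (hRs _ _ h1)).symm)
      refine ⟨h1, ?_⟩
      dsimp only
      rwa [a3 i b1 b2, a3 j b3 b4] at h2
    · have h3 : (i0, j0) ∈ bad e' := h ⟨h0, hne⟩
      exact h3.2 (f1 i0 (hRs _ _ h0)).symm
  have h4 := Set.ncard_lt_ncard hss (Set.toFinite _)
  have h5 := hmin e' (fun i => by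
    rw [he', Equiv.Perm.mul_apply, he]
    by_cases h1 : i = j0
    · rw [h1, Equiv.swap_apply_left, hBl]
    · by_cases h2 : i = l
      · rw [h2, Equiv.swap_apply_right, hBl]
      · rw [Equiv.swap_apply_of_ne_of_ne h1 h2])
  omega

end Pool.Agent.TH742.HP
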