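import Pool.Agent.TH742.HP.Basic

set_option autoImplicit false

/-!
The space barrier: `1 - 1/(2t)` is not good for `t`.
-/

namespace Pool.Agent.TH742.HP

/-- The graph `C_n^k`, `n = 2(m+k)`, with all edges inside the set
`{0,…,m-1} ∪ {m+k,…,2m+k-1}` removed. -/
def barrier (m k : ℕ) : SimpleGraph (ZMod (2 * (m + k))) where
  Adj i j := (cyclePow (2 * (m + k)) k).Adj i j ∧
    ¬ (i.val % (m + k) < m ∧ j.val % (m + k) < m)
  symm := ⟨fun i j h => ⟨h.1.symm, fun h' => h.2 ⟨h'.2, h'.1⟩⟩⟩
  loopless := ⟨fun i h => h.1.1 rfl⟩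

lemma same_block_aux {m k : ℕ} (hm : 0 < m) (v w : ZMod (2 * (m + k))) (hv : v.val % (m + k) < m)
    (hw : w.val % (m + k) < m) (h : cdist v w ≤ k) (hlt : v.val < w.val) :
    v.val / (m + k) = w.val / (m + k) := by
  have : NeZero (2 * (m + k)) := ⟨by omega⟩
  rw [cdist_eq hlt] at h
  have hv1 := ZMod.val_lt v
  have hw1 := ZMod.val_lt w
  have e1 := Nat.div_add_mod v.val (m + k)
  have e2 := Nat.div_add_mod w.val (m + k)
  have h1 : v.val / (m + k) < 2 := Nat.div_lt_of_lt_mul (by omega)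
  have h2 : w.val / (m + k) < 2 := Nat.div_lt_of_lt_mul (by omega)
  generalize v.val / (m + k) = a at *
  generalize w.val / (m + k) = b at *
  generalize v.val % (m + k) = r at *
  generalize w.val % (m + k) = s at *
  interval_cases a <;> interval_cases b
  · rfl
  · exfalso; omega
  · exfalso; omega
  · rfl

lemma same_block {m k : ℕ} (hm : 0 < m) (v w : ZMod (2 * (m + k))) (hv : v.val % (m + k) < m)
    (hw : w.val % (m + k) < m) (h : cdist v w ≤ k) :
    v.val / (m + k) = w.val / (m + k) := by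
  have : NeZero (2 * (m + k)) := ⟨by omega⟩
  rcases lt_trichotomy v.val w.val with h1 | h1 | h1
  · exact same_block_aux hm v w hv hw h h1
  · rw [h1]
  · exact (same_block_aux hm w v hw hv (by rwa [cdist_comm]) h1).symm

lemma block_card {m k : ℕ} (hm : 0 < m) (v : ZMod (2 * (m + k))) (hv : v.val % (m + k) < m) :
    {w : ZMod (2 * (m + k)) | w.val % (m + k) < m ∧ w.val / (m + k) = v.val / (m + k) ∧
      w ≠ v}.ncard + 1 ≤ m := by
  have : NeZero (2 * (m + k)) := ⟨by omega⟩
  classical
  set X : Finset (ZMod (2 * (m + k))) :=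
    Finset.univ.filter (fun w => w.val % (m + k) < m ∧ w.val / (m + k) = v.val / (m + k)) with hX
  have h1 : {w : ZMod (2 * (m + k)) | w.val % (m + k) < m ∧ w.val / (m + k) = v.val / (m + k) ∧
      w ≠ v} = ((X.erase v : Finset _) : Set _) := by
    ext w
    simp only [Set.mem_ofPred_eq, Finset.coe_erase, Set.mem_sdiff, Finset.mem_coe,
      Set.mem_singleton_iff, hX, Finset.mem_filter, Finset.mem_univ, true_and]
    tauto
  have h2 : v ∈ X := by rw [hX, Finset.mem_filter]; exact ⟨Finset.mem_univ _, hv, rfl⟩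
  rw [h1, Set.ncard_coe_finset, Finset.card_erase_add_one h2]
  have h3 : X.card ≤ (Finset.range m).card := by
    refine Finset.card_le_card_of_injOn (fun w => w.val % (m + k)) ?_ ?_
    · intro w hw
      have := (Finset.mem_filter.mp hw).2.1
      simpa using this
    · intro w hw w' hw' h
      have e1 := (Finset.mem_filter.mp hw).2.2
      have e2 := (Finset.mem_filter.mp hw').2.2
      apply ZMod.val_injective
      rw [← Nat.div_add_mod w.val (m + k), ← Nat.div_add_mod w'.val (m + k), e1, e2]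
      have h' : w.val % (m + k) = w'.val % (m + k) := h
      rw [h']
  rwa [Finset.card_range] at h3

lemma barrier_deg {m k : ℕ} (hm : 0 < m) (v : ZMod (2 * (m + k))) :
    ((cyclePow (2 * (m + k)) k).neighborSet v).ncard + 1 ≤
      ((barrier m k).neighborSet v).ncard + m := by
  have : NeZero (2 * (m + k)) := ⟨by omega⟩
  by_cases hv : v.val % (m + k) < m
  · have h1 : (cyclePow (2 * (m + k)) k).neighborSet v ⊆ (barrier m k).neighborSet v ∪
        {w : ZMod (2 * (m + k)) | w.val % (m + k) < m ∧ w.val / (m + k) = v.val / (m + k) ∧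
      w ≠ v} := by
      intro w hw
      by_cases hw1 : w.val % (m + k) < m
      · right
        exact ⟨hw1, (same_block hm v w hv hw1 hw.2).symm, hw.1.symm⟩
      · left
        exact ⟨hw, fun h => hw1 h.2⟩
    have h2 := Set.ncard_le_ncard h1 (Set.toFinite _)
    have h3 := Set.ncard_union_le ((barrier m k).neighborSet v)
      {w : ZMod (2 * (m + k)) | w.val % (m + k) < m ∧ w.val / (m + k) = v.val / (m + k) ∧ w ≠ v}
    have h4 := block_card hm v hv
    omega
  · have h1 : (cyclePow (2 * (m + k)) k).neighborSet v ⊆ (barrier m k).neighborSet v :=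
      fun w hw => ⟨hw, fun h => hv h.1⟩
    have h2 := Set.ncard_le_ncard h1 (Set.toFinite _)
    omega

lemma set_card {m k : ℕ} (hm : 0 < m) : ∃ J : Finset (ZMod (2 * (m + k))),
    (∀ x ∈ J, x.val % (m + k) < m) ∧ 2 * m ≤ J.card := by
  have : NeZero (2 * (m + k)) := ⟨by omega⟩
  classical
  have hlt : ∀ p ∈ (Finset.range 2 ×ˢ Finset.range m : Finset (ℕ × ℕ)),
      p.1 * (m + k) + p.2 < 2 * (m + k) := by
    rintro ⟨a, s⟩ h
    rw [Finset.mem_product, Finset.mem_range, Finset.mem_range] at h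
    obtain ⟨h1, h2⟩ := h
    dsimp only at *
    interval_cases a <;> omega
  refine ⟨(Finset.range 2 ×ˢ Finset.range m).image
    (fun p => ((p.1 * (m + k) + p.2 : ℕ) : ZMod (2 * (m + k)))), ?_, ?_⟩
  · intro x hx
    rw [Finset.mem_image] at hx
    obtain ⟨p, hp, rfl⟩ := hx
    rw [ZMod.val_natCast_of_lt (hlt p hp), add_comm, Nat.add_mul_mod_self_right]
    rw [Finset.mem_product, Finset.mem_range, Finset.mem_range] at hp
    exact lt_of_le_of_lt (Nat.mod_le _ _) hp.2
  · rw [Finset.card_image_of_injOn, Finset.card_product, Finset.card_range, Finset.card_range]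
    intro p hp q hq h
    have h1 := congrArg ZMod.val h
    dsimp only at h1
    rw [ZMod.val_natCast_of_lt (hlt p hp), ZMod.val_natCast_of_lt (hlt q hq)] at h1
    obtain ⟨a, s⟩ := p
    obtain ⟨b, u⟩ := q
    rw [Finset.mem_coe, Finset.mem_product, Finset.mem_range, Finset.mem_range] at hp hq
    obtain ⟨h2, h3⟩ := hp
    obtain ⟨h4, h5⟩ := hq
    dsimp only at *
    interval_cases a <;> interval_cases b <;> simp at h1 ⊢ <;> omega

/-- In a graph containing the `t`-th power of a Hamilton cycle an independent set has at most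
`n/(t+1)` elements. -/
lemma indep_card {n t : ℕ} (ht : t < n) {H : SimpleGraph (ZMod n)} (hH : HasHamPow t H)
    (J : Finset (ZMod n)) (hJ : ∀ x ∈ J, ∀ y ∈ J, ¬ H.Adj x y) : J.card * (t + 1) ≤ n := by
  have : NeZero n := ⟨by omega⟩
  classical
  obtain ⟨v, hv⟩ := hH
  have h1 : ((J ×ˢ Finset.range (t + 1)).image
      (fun p : ZMod n × ℕ => v.symm p.1 + (p.2 : ZMod n))).card ≤ n := by
    refine le_trans (Finset.card_le_univ _) ?_
    rw [ZMod.card]
  rw [Finset.card_image_of_injOn, Finset.card_product, Finset.card_range] at h1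
  · exact h1
  rintro ⟨x, a⟩ hp ⟨y, b⟩ hq h
  rw [Finset.mem_coe, Finset.mem_product, Finset.mem_range] at hp hq
  obtain ⟨h2, h3⟩ := hp
  obtain ⟨h4, h5⟩ := hq
  dsimp only at h h2 h3 h4 h5
  have key : ∀ x y : ZMod n, ∀ a b : ℕ, x ∈ J → y ∈ J → a < t + 1 → b < t + 1 →
      v.symm x + (a : ZMod n) = v.symm y + (b : ZMod n) → b ≤ a → x = y := by
    intro x y a b hx hy ha hb h hba
    by_contra hne
    have h6 : v.symm y = v.symm x + ((a - b : ℕ) : ZMod n) := by
      rw [Nat.cast_sub hba]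
      linear_combination -h
    have h7 : cdist (v.symm x) (v.symm y) ≤ t := by
      rw [h6]
      exact le_trans (cdist_add_nat_le _ _) (by omega)
    have h8 := hv (v.symm x) (v.symm y) (fun h => hne (v.symm.injective h)) h7
    rw [Equiv.apply_symm_apply, Equiv.apply_symm_apply] at h8
    exact hJ x hx y hy h8
  have hxy : x = y := by
    rcases le_total b a with hba | hba
    · exact key x y a b h2 h4 h3 h5 h hba
    · exact (key y x b a h4 h2 h5 h3 h.symm hba).symm
  subst hxy
  have h9 : (a : ZMod n) = (b : ZMod n) := add_left_cancel h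
  have h10 := congrArg ZMod.val h9
  rw [ZMod.val_natCast_of_lt (by omega), ZMod.val_natCast_of_lt (by omega)] at h10
  rw [h10]

/-- Every good `α` is greater than `1 - 1/(2t)`. -/
theorem lower (t : ℕ) (ht : 1 ≤ t) (α : ℝ) (h : Good t α) : 1 - 1 / (2 * (t : ℝ)) < α := by
  by_contra hα
  push Not at hα
  obtain ⟨k₀, hk⟩ := h
  obtain ⟨k, hk0, hkt⟩ : ∃ k, k₀ ≤ k ∧ t ≤ k := ⟨max k₀ t, le_max_left _ _, le_max_right _ _⟩
  set m : ℕ := k / t + 1 with hm
  have hm0 : 0 < m := Nat.succ_pos _
  have hd : k < t * m := by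
    rw [hm]
    have := Nat.lt_mul_div_succ k (show 0 < t by omega)
    exact this
  have hd2 : t * (m - 1) ≤ k := by
    rw [hm, Nat.add_sub_cancel]
    exact Nat.mul_div_le k t
  have hsub : IsAlphaSubgraph α (cyclePow (2 * (m + k)) k) (barrier m k) := by
    refine ⟨fun i j h => h.1, fun v => ?_⟩
    have h1 := two_mul_le_deg (show 2 * k + 1 ≤ 2 * (m + k) by omega) v
    have h2 := barrier_deg hm0 v (k := k)
    set d := ((cyclePow (2 * (m + k)) k).neighborSet v).ncard
    set e := ((barrier m k).neighborSet v).ncard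
    have ht' : (1 : ℝ) ≤ t := by exact_mod_cast ht
    have h3 : (t : ℝ) * ((m : ℝ) - 1) ≤ k := by
      have : ((t * (m - 1) : ℕ) : ℝ) ≤ k := by exact_mod_cast hd2
      rwa [Nat.cast_mul, Nat.cast_sub (by omega), Nat.cast_one] at this
    have h4 : (2 : ℝ) * k ≤ d := by exact_mod_cast h1
    have h5 : (d : ℝ) + 1 ≤ e + m := by exact_mod_cast h2
    have h6 : (0 : ℝ) ≤ d := Nat.cast_nonneg _
    have h7 : (m : ℝ) - 1 ≤ 1 / (2 * (t : ℝ)) * d := by
      rw [div_mul_eq_mul_div, one_mul, le_div_iff₀ (by positivity)]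
      nlinarith
    calc α * (d : ℝ) ≤ (1 - 1 / (2 * (t : ℝ))) * d := mul_le_mul_of_nonneg_right hα h6
      _ = d - 1 / (2 * (t : ℝ)) * d := by ring
      _ ≤ d - (m - 1) := by linarith
      _ ≤ e := by linarith
  have hH := hk k (2 * (m + k)) hk0 (by omega) (by omega) (barrier m k) hsub
  obtain ⟨J, hJ1, hJ2⟩ := set_card (m := m) (k := k) hm0
  have h1 := indep_card (show t < 2 * (m + k) by omega) hH J
    (fun x hx y hy h => h.2 ⟨hJ1 x hx, hJ1 y hy⟩)
  have h2 : 2 * m * (t + 1) ≤ 2 * (m + k) := le_trans (Nat.mul_le_mul_right _ hJ2) h1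
  have h3 : m * t ≤ k := by nlinarith
  rw [mul_comm] at h3
  omega

end Pool.Agent.TH742.HP
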