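import Pool.Agent.TH742.HP.Dist
import Pool.Agent.TH742.HP.Exch

set_option autoImplicit false

/-!
Every `α > 1 - 1/(20t)` is good for `t`.
-/

namespace Pool.Agent.TH742.HP

lemma Good.mono {t : ℕ} {α β : ℝ} (h : Good t α) (hab : α ≤ β) : Good t β := by
  obtain ⟨k₀, hk⟩ := h
  exact ⟨k₀, fun k n h1 h2 h3 H hH => hk k n h1 h2 h3 H ⟨hH.1, fun v =>
    le_trans (mul_le_mul_of_nonneg_right hab (Nat.cast_nonneg _)) (hH.2 v)⟩⟩

lemma core {t n k D : ℕ} [NeZero n] (H : SimpleGraph (ZMod n))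
    (hD : ∀ v, {w | (cyclePow n k).Adj v w ∧ ¬ H.Adj v w}.ncard ≤ D)
    {ι : Type} (B : ZMod n → ι)
    (hB : ∀ i j u w, cdist i j ≤ t → B u = B i → B w = B j → cdist u w ≤ k)
    (hs : ∀ v, 4 * t * D + 2 * t + 2 ≤ {w | B w = B v}.ncard) : HasHamPow t H := by
  classical
  obtain ⟨e, he⟩ := exchange (fun i j : ZMod n => (cyclePow n t).Adj i j)
    (fun i j h => h.symm) (fun i h => h.1 rfl) (2 * t) (fun i => by
      rw [← Set.ncard_coe_finset]
      refine le_trans (le_of_eq ?_) (deg_le (k := t) i)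
      congr 1
      ext w
      simp [SimpleGraph.mem_neighborSet])
    (cyclePow n k) H D (fun v => by
      rw [← Set.ncard_coe_finset]
      refine le_trans (le_of_eq ?_) (hD v)
      congr 1
      ext w
      simp)
    B (fun i j u w hR hu hw huw => ⟨huw, hB i j u w hR.2 hu hw⟩) (fun v => by
      rw [← Set.ncard_coe_finset]
      have h1 := hs v
      have h2 : ((Finset.univ.filter (fun w => B w = B v) : Finset (ZMod n)) : Set (ZMod n)) =
          {w | B w = B v} := by
        ext w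
        simp
      rw [h2]
      have h3 : 2 * (2 * t * D) = 4 * t * D := by ring
      rw [h3]
      omega)
  exact ⟨e, fun i j h1 h2 => he i j ⟨h1, h2⟩⟩

lemma missing {n k : ℕ} [NeZero n] {α : ℝ} {H : SimpleGraph (ZMod n)}
    (hH : IsAlphaSubgraph α (cyclePow n k) H) (v : ZMod n) :
    ({w | (cyclePow n k).Adj v w ∧ ¬ H.Adj v w}.ncard : ℝ) ≤
      (1 - α) * (((cyclePow n k).neighborSet v).ncard : ℝ) := by
  have h1 : {w | (cyclePow n k).Adj v w ∧ ¬ H.Adj v w} =
      (cyclePow n k).neighborSet v \ H.neighborSet v := by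
    ext w
    simp [SimpleGraph.mem_neighborSet]
  have h2 : H.neighborSet v ⊆ (cyclePow n k).neighborSet v := fun w hw => hH.1 hw
  have h3 := Set.ncard_sdiff_add_ncard_of_subset h2 (Set.toFinite _)
  rw [← h1] at h3
  have h4 := hH.2 v
  have h5 : ({w | (cyclePow n k).Adj v w ∧ ¬ H.Adj v w}.ncard : ℝ) +
      ((H.neighborSet v).ncard : ℝ) = (((cyclePow n k).neighborSet v).ncard : ℝ) := by
    exact_mod_cast h3
  linarith

/-- Every `α > 1 - 1/(20t)` is good for `t`. -/
theorem upper (t : ℕ) (ht : 1 ≤ t) (α : ℝ) (hα : 1 - 1 / (20 * (t : ℝ)) < α) : Good t α := by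
  have ht' : (1 : ℝ) ≤ t := by exact_mod_cast ht
  have h0 : (0 : ℝ) < 1 / (20 * (t : ℝ)) := by positivity
  refine Good.mono (α := min α 1) ?_ (min_le_left _ _)
  have hβ : 1 - 1 / (20 * (t : ℝ)) < min α 1 := lt_min hα (by linarith)
  have hβ1 : min α 1 ≤ 1 := min_le_right _ _
  generalize min α 1 = β at hβ hβ1
  obtain ⟨δ, hδ⟩ : ∃ δ, δ = 1 - β := ⟨_, rfl⟩
  have hδ0 : 0 ≤ δ := by linarith
  have hδ1 : δ < 1 / (20 * (t : ℝ)) := by linarith
  have hδ2 : 20 * t * δ < 1 := by
    rw [lt_div_iff₀ (by positivity)] at hδ1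
    linarith
  obtain ⟨ε, hε⟩ : ∃ ε, ε = 1 - 20 * t * δ := ⟨_, rfl⟩
  have hε0 : 0 < ε := by linarith
  refine ⟨⌈20 * ((t : ℝ) + 1) / ε⌉₊ + 20 * (t + 1), fun k n hk hkn hn3 H hH => ?_⟩
  have : NeZero n := ⟨by omega⟩
  have hk1 : 20 * (t + 1) ≤ k := by omega
  have hk2 : 20 * ((t : ℝ) + 1) ≤ ε * k := by
    have h1 : 20 * ((t : ℝ) + 1) / ε ≤ k := by
      refine le_trans (Nat.le_ceil _) ?_
      exact_mod_cast (show ⌈20 * ((t : ℝ) + 1) / ε⌉₊ ≤ k by omega)
    rw [div_le_iff₀ hε0] at h1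
    linarith
  rcases Nat.lt_or_ge (2 * k + 1) n with hn | hn
  · -- many blocks
    obtain ⟨s, hs⟩ : ∃ s, s = (k - t) / 2 := ⟨_, rfl⟩
    have hs0 : 0 < s := by omega
    have hs1 : 2 * s + t ≤ k := by omega
    have hs2 : k ≤ 2 * s + t + 1 := by omega
    obtain ⟨q, hq⟩ : ∃ q, q = n / s + 1 := ⟨_, rfl⟩
    have hq0 : 0 < q := by rw [hq]; exact Nat.succ_pos _
    have hq1 : n ≤ q * s := by
      have := Nat.lt_mul_div_succ n hs0
      rw [hq, mul_comm]
      exact this.le
    have hq2 : q * s ≤ n + s := by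
      have := Nat.div_mul_le_self n s
      rw [hq, Nat.add_mul, one_mul]
      omega
    refine core (k := k) (D := ⌊δ * (2 * k)⌋₊) H (fun v => ?_) (fun x => x.val * q / n)
      (fun i j u w hij hu hw => ?_) (fun v => ?_)
    · apply Nat.le_floor
      refine le_trans (missing hH v) ?_
      rw [← hδ]
      refine mul_le_mul_of_nonneg_left ?_ hδ0
      exact_mod_cast deg_le v
    · have h1 := class_diam hq1 u i hu
      have h2 := class_diam hq1 j w hw.symm
      have h3 := cdist_triangle u i w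
      have h4 := cdist_triangle i j w
      omega
    · refine le_trans ?_ (class_card hq0 v)
      rw [Nat.le_div_iff_mul_le hq0]
      obtain ⟨D, hD⟩ : ∃ D, D = ⌊δ * (2 * k)⌋₊ := ⟨_, rfl⟩
      have hD1 : (D : ℝ) ≤ δ * (2 * k) := by
        rw [hD]
        exact Nat.floor_le (by positivity)
      rw [← hD]
      have hk0 : (0 : ℝ) ≤ k := Nat.cast_nonneg _
      have e1 : (4 : ℝ) * t * D ≤ 4 * t * (δ * (2 * k)) :=
        mul_le_mul_of_nonneg_left hD1 (by positivity)
      have e2 : (4 : ℝ) * t * (δ * (2 * k)) = 2 / 5 * k - 2 / 5 * (ε * k) := by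
        rw [hε]; ring
      have e3 : (4 : ℝ) * t * D + 2 * t + 2 ≤ 4 / 5 * s := by
        have : (k : ℝ) ≤ 2 * s + t + 1 := by exact_mod_cast hs2
        linarith
      have hs0' : (0 : ℝ) < s := by exact_mod_cast hs0
      have hns : (4 : ℝ) * s ≤ n := by
        have : 4 * s ≤ n := by omega
        exact_mod_cast this
      have hq2' : (q : ℝ) * s ≤ n + s := by exact_mod_cast hq2
      have e4 : ((4 : ℝ) * t * D + 2 * t + 2) * (q * s) ≤ n * s := by
        calc ((4 : ℝ) * t * D + 2 * t + 2) * (q * s) ≤ (4 / 5 * s) * (n + s) :=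
              mul_le_mul e3 hq2' (by positivity) (by positivity)
          _ ≤ n * s := by nlinarith
      have e5 : ((4 : ℝ) * t * D + 2 * t + 2) * q ≤ n := by
        have : (((4 : ℝ) * t * D + 2 * t + 2) * q) * s ≤ n * s := by
          rw [mul_assoc]; exact e4
        exact le_of_mul_le_mul_right this hs0'
      exact_mod_cast e5
  · -- complete host
    refine core (k := k) (D := ⌊δ * n⌋₊) H (fun v => ?_) (fun _ => ())
      (fun i j u w _ _ _ => cdist_le_half hn u w) (fun v => ?_)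
    · apply Nat.le_floor
      refine le_trans (missing hH v) ?_
      rw [← hδ]
      refine mul_le_mul_of_nonneg_left ?_ hδ0
      have h1 := deg_lt (k := k) v
      have : ((cyclePow n k).neighborSet v).ncard ≤ n := by omega
      exact_mod_cast this
    · have h1 : {w : ZMod n | (fun _ => () : ZMod n → Unit) w = (fun _ => ()) v} = Set.univ := by
        ext w
        simp
      rw [h1, Set.ncard_univ, Nat.card_eq_fintype_card, ZMod.card]
      obtain ⟨D, hD⟩ : ∃ D, D = ⌊δ * (n : ℝ)⌋₊ := ⟨_, rfl⟩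
      have hD1 : (D : ℝ) ≤ δ * n := by
        rw [hD]
        exact Nat.floor_le (by positivity)
      rw [← hD]
      have hn0 : (0 : ℝ) ≤ n := Nat.cast_nonneg _
      have e1 : (4 : ℝ) * t * D ≤ 4 * t * (δ * n) :=
        mul_le_mul_of_nonneg_left hD1 (by positivity)
      have e2 : (4 : ℝ) * t * (δ * n) = 1 / 5 * n - 1 / 5 * (ε * n) := by
        rw [hε]; ring
      have e3 : 0 ≤ ε * n := by positivity
      have e4 : (20 : ℝ) * (t + 1) ≤ n := by
        have : 20 * (t + 1) ≤ n := by omega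
        exact_mod_cast this
      have e5 : (4 : ℝ) * t * D + 2 * t + 2 ≤ n := by linarith
      exact_mod_cast e5

end Pool.Agent.TH742.HP
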